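import Pool.Agent.W522.L.L2

/-!
# Kato's log monodromy-weight conjecture for a positive proportion of the primes `ℓ`

Let `X` be a projective SNCL variety of relative dimension `n` over a family of log points, `Y^(m)`
the disjoint union of the intersections of `m` components of its fibres. The cohomology of the
strata of a geometric fibre, with coefficients in `ℚ_ℓ` for all `ℓ`, and the Frobenius endomorphisms
at the closed points `s` of the base are the data of a `Family`. No hard Lefschetz theorem for the
log cohomology is used.
-/

set_option autoImplicit false

namespace Pool.Agent.Results.MP_f8720a_ag.PositiveDensity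

open Pool.Agent.W522.M

/-- **Kato's conjecture in the middle degree for a set of primes `ℓ` of positive density.**

(1) Any dimension `n`, `1 ≤ r ≤ n`: if, at the given closed points, every common root of the
Frobenius polynomials of `H^(n-r)(Y^(r))` and of `H^(n-r)(Y^(r+1))` is a simple root of the latter,
then `N^r : gr_(n+r) H^n → gr_(n-r) H^n` is bijective for a set of prime numbers `ℓ` of lower
density at least `1 / [K : ℚ]`, where `K` is the field generated by the roots of the second
polynomial at one closed point; with several closed points one may take for `K` any Galois extension
of `ℚ` as in `Family.Core` (density one, if `K = ℚ`).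

(2) Threefolds, `N : gr_4 H^3 → gr_2 H^3`: here the roots equal to `q` are excepted, if the
conjecture of Tate holds for divisors on the components. -/
theorem result (X : Family) :
    (∀ n r : ℕ, 1 ≤ r → r ≤ n → X.IsSNCL n r → (∀ j, (X.pt j).Simple) →
      X.MonodromyWeightForDensity n r) ∧
    (X.IsSNCL 3 1 → (∀ j, SimpleCommonRoots (X.pt j).P₁ (X.pt j).P₂ (X.pt j).q) →
      (∀ j ℓ, (X.pt j).Divisors 3 ℓ (X.D ℓ) (X.F j ℓ)) → X.MonodromyWeightForDensity 3 1) :=
  final X

end Pool.Agent.Results.MP_f8720a_ag.PositiveDensity
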